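import Pool.Agent.K3h55.LT.Stm

/-! Bricks CNT and TOT of the project LT (helper55, MP_e9f8c5_pr): the number of Lipschitz
functions on the `d`-ary tree (helper62). -/

set_option autoImplicit false

namespace Pool.Agent.K3h62.LT

open Pool.Agent.K3h55.LT

variable {d : ℕ} {S : Finset ℤ}

/-- the Lipschitz functions with the value `k` at the root -/
def F (d : ℕ) (S : Finset ℤ) (n : ℕ) (k : ℤ) : Set (Lab d n) := {t | t ∈ Adm d S n ∧ root n t = k}

/-- the Lipschitz functions with a value at distance at most one from `k` at the root -/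
def B (d : ℕ) (S : Finset ℤ) (n : ℕ) (k : ℤ) : Set (Lab d n) :=
  {t | t ∈ Adm d S n ∧ |root n t - k| ≤ 1}

theorem B_eq (n : ℕ) (k : ℤ) : B d S n k = F d S n (k - 1) ∪ F d S n k ∪ F d S n (k + 1) := by
  ext t
  simp only [B, F, Set.mem_union, Set.mem_ofPred_eq]
  rw [abs_le]
  constructor
  · rintro ⟨h1, h2, h3⟩
    have : root n t = k - 1 ∨ root n t = k ∨ root n t = k + 1 := by omega
    tauto
  · rintro ((⟨h1, h2⟩ | ⟨h1, h2⟩) | ⟨h1, h2⟩) <;> exact ⟨h1, by omega, by omega⟩

/-- the equivalence which defines `Lab d (n + 1)` -/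
def mk {n : ℕ} (k : ℤ) (f : Fin d → Lab d n) : Lab d (n + 1) :=
  (show ℤ × (Fin d → Lab d n) from (k, f))

theorem mk_inj {n : ℕ} (k : ℤ) : Function.Injective (mk (d := d) (n := n) k) := by
  intro f g h
  have h1 : ((k, f) : ℤ × (Fin d → Lab d n)) = (k, g) := h
  exact (Prod.mk.inj h1).2

theorem F_succ (n : ℕ) (k : ℤ) :
    F d S (n + 1) k = mk k '' {f | ∀ i, f i ∈ B d S n k} := by
  ext t
  constructor
  · rintro ⟨⟨h1, h2⟩, h3⟩
    refine ⟨fun i => sub t i, fun i => ⟨⟨(h1 i).2, h2 i⟩, ?_⟩, ?_⟩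
    · rw [← h3]
      exact (h1 i).1
    · rw [← h3]
      rfl
  · rintro ⟨f, hf, rfl⟩
    exact ⟨⟨fun i => ⟨(hf i).2, (hf i).1.1⟩, fun i => (hf i).1.2⟩, rfl⟩

theorem F_fin (n : ℕ) : ∀ k : ℤ, (F d S n k).Finite := by
  induction n with
  | zero =>
    intro k
    refine Set.Finite.subset (Set.finite_singleton (show Lab d 0 from k)) ?_
    rintro t ⟨-, h⟩
    exact h
  | succ n ih =>
    intro k
    rw [F_succ]
    refine Set.Finite.image _ ?_
    have hB : (B d S n k).Finite := by
      rw [B_eq]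
      exact ((ih _).union (ih _)).union (ih _)
    have := Set.Finite.pi (fun _ : Fin d => hB)
    refine this.subset fun f hf i _ => hf i

theorem cnt_eq (n : ℕ) (k : ℤ) : cnt d S n k = (F d S n k).ncard := rfl

theorem B_card (n : ℕ) (k : ℤ) :
    (B d S n k).ncard = cnt d S n (k - 1) + cnt d S n k + cnt d S n (k + 1) := by
  rw [B_eq, Set.ncard_union_eq ?_ ((F_fin n _).union (F_fin n _)) (F_fin n _),
    Set.ncard_union_eq ?_ (F_fin n _) (F_fin n _)]
  · rfl
  · rw [Set.disjoint_left]
    rintro t ⟨-, h1⟩ ⟨-, h2⟩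
    omega
  · rw [Set.disjoint_left]
    rintro t (⟨-, h1⟩ | ⟨-, h1⟩) ⟨-, h2⟩ <;> omega

theorem t_CNT : S_CNT := by
  classical
  intro d S
  constructor
  · intro k
    rw [cnt_eq]
    split_ifs with hk
    · have : F d S 0 k = {(show Lab d 0 from k)} := by
        ext t
        constructor
        · rintro ⟨-, h⟩
          exact h
        · rintro rfl
          exact ⟨⟨trivial, hk⟩, rfl⟩
      rw [this, Set.ncard_singleton]
    · have : F d S 0 k = ∅ := by
        rw [Set.eq_empty_iff_forall_notMem]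
        rintro t ⟨⟨-, h1⟩, h2⟩
        apply hk
        rw [← h2]
        exact h1
      rw [this, Set.ncard_empty]
  · intro n k
    rw [cnt_eq, F_succ, Set.ncard_image_of_injective _ (mk_inj k), ← B_card,
      ← Nat.card_coe_set_eq, ← Nat.card_coe_set_eq]
    have e : {f : Fin d → Lab d n | ∀ i, f i ∈ B d S n k} ≃ (Fin d → B d S n k) :=
      Equiv.subtypePiEquivPi (p := fun (_ : Fin d) (t : Lab d n) => t ∈ B d S n k)
    rw [Nat.card_congr e, Nat.card_fun, Nat.card_eq_fintype_card (α := Fin d), Fintype.card_fin]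

theorem supp_fin (hd : 1 ≤ d) (n : ℕ) : (Function.support fun k => cnt d S n k).Finite := by
  induction n with
  | zero =>
    refine S.finite_toSet.subset fun k hk => ?_
    by_contra h
    apply hk
    change cnt d S 0 k = 0
    rw [(t_CNT d S).1 k, if_neg (fun hk' => h (Finset.mem_coe.2 hk'))]
  | succ n ih =>
    refine ((ih.image fun k => k + 1).union ih |>.union (ih.image fun k => k - 1)).subset ?_
    intro k hk
    have h1 : cnt d S (n + 1) k ≠ 0 := hk
    rw [(t_CNT d S).2 n k] at h1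
    have h2 : cnt d S n (k - 1) + cnt d S n k + cnt d S n (k + 1) ≠ 0 := by
      intro h0
      rw [h0, zero_pow (by omega)] at h1
      exact h1 rfl
    by_cases h3 : cnt d S n (k - 1) = 0
    · by_cases h4 : cnt d S n k = 0
      · right
        exact ⟨k + 1, fun h5 : cnt d S n (k + 1) = 0 => h2 (by omega), by ring⟩
      · left; right
        exact h4
    · left; left
      exact ⟨k - 1, h3, by ring⟩

theorem t_TOT : S_TOT := by
  classical
  intro d hd S n
  have hs := supp_fin (S := S) hd n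
  refine ⟨hs, ?_⟩
  have hmem : ∀ t ∈ Adm d S n, root n t ∈ hs.toFinset := by
    intro t ht
    rw [Set.Finite.mem_toFinset]
    change cnt d S n (root n t) ≠ 0
    rw [cnt_eq]
    exact ((Set.ncard_pos (F_fin n _)).2 ⟨t, ht, rfl⟩).ne'
  have hA : (Adm d S n).Finite := by
    refine (Set.Finite.biUnion hs fun k _ => F_fin (d := d) (S := S) n k).subset fun t ht => ?_
    rw [Set.mem_iUnion₂]
    exact ⟨root n t, (Set.Finite.mem_toFinset hs).1 (hmem t ht), ht, rfl⟩
  rw [tsum_eq_sum (s := hs.toFinset) (fun k hk => by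
    rw [Set.Finite.mem_toFinset] at hk
    by_contra h
    exact hk fun h0 : cnt d S n k = 0 => h (by rw [h0, Nat.cast_zero])), ← Nat.cast_sum]
  congr 1
  rw [Set.ncard_eq_toFinset_card _ hA, Finset.card_eq_sum_card_fiberwise
    (f := fun t => root n t) (t := hs.toFinset) (fun t ht => hmem t (by
      simpa using ht))]
  refine Finset.sum_congr rfl fun k _ => ?_
  rw [cnt_eq, ← Set.ncard_coe_finset]
  congr 1
  ext t
  simp [F]

end Pool.Agent.K3h62.LT
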